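import Pool.Agent.Helper74.HG.GoalsD
import Pool.Agent.Helper84.HG.WD

/-!
# Project HG (MP_aa7fc1_ag): packet HG-DEG (bounded degree)
-/

set_option autoImplicit false

namespace Pool.Agent.Helper91.HG.DEG

open MvPolynomial Pool.Agent.Helper74.HG Pool.Agent.Helper84.HG.WD

noncomputable section

open Classical in
/-- The degree of a vertex. -/
def dg {σ : Type} (H : Finset (Finset σ)) (i : σ) : ℕ := (H.filter (fun e => i ∈ e)).card

theorem sub3_iff {σ : Type} (H : Finset (Finset σ)) : Sub3 H ↔ ∀ i, dg H i ≤ 3 := Iff.rfl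

open Classical in
theorem dg_le {σ τ : Type} (H' : Finset (Finset τ)) (j : τ) (K : Finset (Finset σ)) (i : σ)
    (f : Finset σ → Finset τ) (h : ∀ e' ∈ H', j ∈ e' → ∃ e ∈ K, i ∈ e ∧ f e = e') :
    dg H' j ≤ dg K i := by
  unfold dg
  refine Finset.card_le_card_of_surjOn f ?_
  intro e' he'
  rw [Finset.mem_coe, Finset.mem_filter] at he'
  obtain ⟨e, h1, h2, h3⟩ := h e' he'.1 he'.2
  exact ⟨e, Finset.mem_coe.2 (Finset.mem_filter.2 ⟨h1, h2⟩), h3⟩

open Classical in
theorem dg_zero {σ : Type} (H : Finset (Finset σ)) (j : σ) (h : ∀ e ∈ H, j ∉ e) :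
    dg H j ≤ 0 := by
  unfold dg
  rw [Nat.le_zero, Finset.card_eq_zero, Finset.filter_eq_empty_iff]
  exact h

open Classical in
theorem dg_le_card {σ : Type} (H : Finset (Finset σ)) (j : σ) : dg H j ≤ H.card :=
  Finset.card_le_card (Finset.filter_subset _ _)

open Classical in
theorem dg_full {σ : Type} (H : Finset (Finset σ)) (j : σ) (h : ∀ e ∈ H, j ∈ e) :
    dg H j = H.card := by
  unfold dg
  rw [Finset.filter_true_of_mem h]

open Classical in
theorem dg_le_add {σ : Type} (H K B : Finset (Finset σ)) (h : ∀ e ∈ H, e ∈ K ∨ e ∈ B) (j : σ) :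
    dg H j ≤ dg K j + dg B j := by
  unfold dg
  have h1 : H.filter (fun e => j ∈ e) ⊆ K.filter (fun e => j ∈ e) ∪ B.filter (fun e => j ∈ e) := by
    intro e he
    rw [Finset.mem_filter] at he
    rw [Finset.mem_union, Finset.mem_filter, Finset.mem_filter]
    rcases h e he.1 with h2 | h2
    · exact Or.inl ⟨h2, he.2⟩
    · exact Or.inr ⟨h2, he.2⟩
  exact (Finset.card_le_card h1).trans (Finset.card_union_le _ _)

open Classical in
theorem dg_ins_le {σ : Type} (H : Finset (Finset σ)) (e : Finset σ) (j : σ) :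
    dg (ins e H) j ≤ dg H j + 1 := by
  have h := dg_le_add (ins e H) H {e} (fun e' he' => by
    rcases mem_ins.1 he' with h | h
    · exact Or.inr (Finset.mem_singleton.2 h)
    · exact Or.inl h) j
  have h2 := dg_le_card {e} j
  rw [Finset.card_singleton] at h2
  omega

theorem dg_ins_of {σ : Type} (H : Finset (Finset σ)) (e : Finset σ) (j : σ) (hj : j ∉ e) :
    dg (ins e H) j ≤ dg H j := by
  refine dg_le _ _ _ _ id ?_
  intro e' he' hj'
  rcases mem_ins.1 he' with h | h
  · rw [h] at hj'
    exact absurd hj' hj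
  · exact ⟨e', h, hj', rfl⟩

theorem dg_up {σ : Type} (H : Finset (Finset σ)) (i : σ) : dg (upH H) (em σ i) ≤ dg H i := by
  refine dg_le _ _ _ _ (Finset.map (em σ)) ?_
  intro e' h1 h2
  unfold upH at h1
  obtain ⟨e, he, rfl⟩ := Finset.mem_map.1 h1
  refine ⟨e, he, ?_, rfl⟩
  have h3 : em σ i ∈ e.map (em σ) := h2
  obtain ⟨k, hk, hk'⟩ := Finset.mem_map.1 h3
  rwa [← (em σ).injective hk']

theorem dg_up_none {σ : Type} (H : Finset (Finset σ)) : dg (upH H) none ≤ 0 :=
  dg_zero _ _ fun _ he => (none_not_mem he).1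

theorem dg_up_some_none {σ : Type} (H : Finset (Finset σ)) : dg (upH H) (some none) ≤ 0 :=
  dg_zero _ _ fun _ he => (none_not_mem he).2

/-- The difference. -/
def df {σ : Type} (H B : Finset (Finset σ)) : Finset (Finset σ) :=
  @SDiff.sdiff _ (@Finset.instSDiff _ (Classical.decEq _)) H B

theorem mem_df {σ : Type} {H B : Finset (Finset σ)} {e : Finset σ} :
    e ∈ df H B ↔ e ∈ H ∧ e ∉ B := by
  let _ := Classical.decEq (Finset σ)
  exact Finset.mem_sdiff

open Classical in
theorem dg_split {σ : Type} (H K B : Finset (Finset σ)) (h : ∀ e, e ∈ H ↔ e ∈ K ∨ e ∈ B)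
    (hd : ∀ e ∈ K, e ∉ B) (j : σ) : dg K j + dg B j = dg H j := by
  unfold dg
  have h1 : Disjoint (K.filter (fun e => j ∈ e)) (B.filter (fun e => j ∈ e)) := by
    rw [Finset.disjoint_left]
    intro e he he'
    exact hd e (Finset.mem_filter.1 he).1 (Finset.mem_filter.1 he').1
  rw [← Finset.card_union_of_disjoint h1]
  congr 1
  ext e
  rw [Finset.mem_union, Finset.mem_filter, Finset.mem_filter, Finset.mem_filter, h e]
  tauto

theorem em_ne_none {σ : Type} (i : σ) : em σ i ≠ none := by
  rw [em_apply]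
  intro h
  cases h

theorem dg_H1_none {σ : Type} (H : Finset (Finset σ)) (i : σ) : dg (H1 H i) none ≤ 1 := by
  unfold H1 H0
  refine (dg_ins_of _ _ _ ?_).trans ((dg_ins_le _ _ _).trans ?_)
  · rw [mem_pr]
    rintro (h | h)
    · exact em_ne_none i h.symm
    · cases h
  · exact Nat.succ_le_succ (dg_up_none H)

theorem dg_H1_some_none {σ : Type} (H : Finset (Finset σ)) (i : σ) :
    dg (H1 H i) (some none) ≤ 2 := by
  unfold H1 H0
  have h1 := dg_ins_le (ins (pr (none : Option (Option σ)) (some none)) (upH H))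
    (pr (em σ i) (some none)) (some none)
  have h2 := dg_ins_le (upH H) (pr (none : Option (Option σ)) (some none)) (some none)
  have h3 := dg_up_some_none H
  omega

theorem dg_H1_em {σ : Type} (H : Finset (Finset σ)) (i j : σ) :
    dg (H1 H i) (em σ j) ≤ dg H j + 1 := by
  unfold H1 H0
  refine (dg_ins_le _ _ _).trans (Nat.succ_le_succ ((dg_ins_of _ _ _ ?_).trans (dg_up H j)))
  rw [mem_pr]
  rintro (h | h)
  · exact em_ne_none j h
  · exact em_ne j h

theorem dg_H1_em_ne {σ : Type} (H : Finset (Finset σ)) (i j : σ) (hij : j ≠ i) :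
    dg (H1 H i) (em σ j) ≤ dg H j := by
  unfold H1 H0
  refine (dg_ins_of _ _ _ ?_).trans ((dg_ins_of _ _ _ ?_).trans (dg_up H j))
  · rw [mem_pr]
    rintro (h | h)
    · exact hij ((em σ).injective h)
    · exact em_ne j h
  · rw [mem_pr]
    rintro (h | h)
    · exact em_ne_none j h
    · exact em_ne j h

/-- The old vertices after two steps. -/
def em2 (σ : Type) : σ ↪ Option (Option (Option (Option σ))) := (em σ).trans (em _)

theorem em2_apply {σ : Type} (i : σ) : em2 σ i = em _ (em σ i) := rfl

/-- The edge `e` with `x` replaced by the new vertex. -/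
def ph {σ : Type} (x : σ) (e : Finset σ) : Finset (Option (Option (Option (Option σ)))) :=
  ((@Finset.erase _ (Classical.decEq _) e x).map (em2 σ)).cons none (by
    intro h
    obtain ⟨i, _, hi⟩ := Finset.mem_map.1 h
    exact em_ne_none _ hi)

theorem mem_ph {σ : Type} {x : σ} {e : Finset σ} {j : Option (Option (Option (Option σ)))} :
    j ∈ ph x e ↔ j = none ∨ ∃ i, i ≠ x ∧ i ∈ e ∧ em2 σ i = j := by
  let _ := Classical.decEq σ
  unfold ph
  rw [Finset.mem_cons, Finset.mem_map]
  refine or_congr Iff.rfl (exists_congr fun i => ?_)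
  rw [Finset.mem_erase, and_assoc]

theorem card_ph {σ : Type} {x : σ} {e : Finset σ} (h : x ∈ e) : (ph x e).card = e.card := by
  let _ := Classical.decEq σ
  unfold ph
  rw [Finset.card_cons, Finset.card_map]
  exact Finset.card_erase_add_one h

theorem ph_inj {σ : Type} {x : σ} {e e' : Finset σ} (h : x ∈ e) (h' : x ∈ e')
    (he : ph x e = ph x e') : e ⊆ e' := by
  intro i hi
  by_cases hx : i = x
  · rw [hx]; exact h'
  · have h1 : em2 σ i ∈ ph x e := mem_ph.2 (Or.inr ⟨i, hx, hi, rfl⟩)
    rw [he] at h1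
    rcases mem_ph.1 h1 with h2 | ⟨k, _, hk, hk'⟩
    · exact absurd h2 (em_ne_none _)
    · rwa [← (em2 σ).injective hk']

/-- The sum of the rests of the edges. -/
def bb {σ : Type} (x : σ) (B : Finset (Finset σ)) : MvPolynomial σ ℤ :=
  ∑ e ∈ B, ∏ i ∈ @Finset.erase _ (Classical.decEq _) e x, X i

open Classical in
/-- The new edges. -/
def NB {σ : Type} (x : σ) (B : Finset (Finset σ)) :
    Finset (Finset (Option (Option (Option (Option σ))))) := B.image (ph x)

theorem hyp_NB {σ : Type} (x : σ) (B : Finset (Finset σ)) (hB : ∀ e ∈ B, x ∈ e) :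
    hyp (NB x B) = X none * rename (fun i => some (some i))
      (rename (fun i => some (some i)) (bb x B)) := by
  classical
  unfold hyp NB bb
  rw [Finset.sum_image (fun e he e' he' h => Finset.Subset.antisymm
    (ph_inj (hB e he) (hB e' he') h) (ph_inj (hB e' he') (hB e he) h.symm)), map_sum, map_sum,
    Finset.mul_sum]
  refine Finset.sum_congr rfl fun e _ => ?_
  unfold ph
  rw [Finset.prod_cons, Finset.prod_map, map_prod, map_prod]
  congr 1
  refine Finset.prod_congr rfl fun i _ => ?_
  rw [rename_X, rename_X]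
  rfl

theorem hyp_split {σ : Type} (x : σ) (H B : Finset (Finset σ)) (hBH : B ⊆ H)
    (hB : ∀ e ∈ B, x ∈ e) :
    hyp H = hyp (df H B) +
      C 1 * X x * bb x B := by
  let _ := Classical.decEq (Finset σ)
  let _ := Classical.decEq σ
  unfold hyp bb
  have h := Finset.sum_sdiff hBH (f := fun e : Finset σ => ∏ i ∈ e, (X i : MvPolynomial σ ℤ))
  rw [← h, C_1, one_mul, Finset.mul_sum]
  congr 1
  refine Finset.sum_congr rfl fun e he => ?_
  exact (Finset.mul_prod_erase e (fun i => (X i : MvPolynomial σ ℤ)) (hB e he)).symm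

theorem cc_bb {σ : Type} (x : σ) (B : Finset (Finset σ)) (hB : ∀ e ∈ B, x ∈ e)
    (h2 : ∀ e ∈ B, 2 ≤ e.card) : constantCoeff (bb x B) = 0 := by
  let _ := Classical.decEq σ
  unfold bb
  rw [map_sum]
  refine Finset.sum_eq_zero fun e he => ?_
  have h3 : (e.erase x).Nonempty := by
    rw [← Finset.card_pos, Finset.card_erase_of_mem (hB e he)]
    have := h2 e he
    omega
  obtain ⟨i, hi⟩ := h3
  rw [map_prod]
  exact Finset.prod_eq_zero hi (constantCoeff_X _ i)

theorem dg_sdiff {σ : Type} (H B : Finset (Finset σ)) (hBH : B ⊆ H) (i : σ) :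
    dg (df H B) i + dg B i = dg H i := by
  refine dg_split _ _ _ (fun e => ?_) (fun e he => (mem_df.1 he).2) i
  rw [mem_df]
  constructor
  · intro h
    by_cases hb : e ∈ B
    · exact Or.inr hb
    · exact Or.inl ⟨h, hb⟩
  · rintro (h | h)
    · exact h.1
    · exact hBH h

/-- The excess. -/
def exc {σ : Type} [Fintype σ] (H : Finset (Finset σ)) : ℕ := ∑ i, (dg H i - 3)

open Classical in
/-- The new hypergraph. -/
def NH {σ : Type} (x : σ) (R B : Finset (Finset σ)) :
    Finset (Finset (Option (Option (Option (Option σ))))) := H1 (H1 R x) none ∪ NB x B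

open Classical in
theorem mem_NB {σ : Type} {x : σ} {B : Finset (Finset σ)} {e'} :
    e' ∈ NB x B ↔ ∃ e ∈ B, ph x e = e' := by
  unfold NB
  exact Finset.mem_image

open Classical in
theorem mem_NH {σ : Type} {x : σ} {R B : Finset (Finset σ)} {e} :
    e ∈ NH x R B ↔ e ∈ H1 (H1 R x) none ∨ e ∈ NB x B := by
  unfold NH
  exact Finset.mem_union

theorem dg_NH {σ : Type} (x : σ) (R B : Finset (Finset σ)) (j) :
    dg (NH x R B) j ≤ dg (H1 (H1 R x) none) j + dg (NB x B) j :=
  dg_le_add _ _ _ (fun _ he => mem_NH.1 he) j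

open Classical in
theorem dg_NB_none {σ : Type} (x : σ) (B : Finset (Finset σ)) : dg (NB x B) none ≤ B.card := by
  refine (dg_le_card _ _).trans ?_
  unfold NB
  exact Finset.card_image_le

theorem dg_NB_em2 {σ : Type} (x : σ) (B : Finset (Finset σ)) (i : σ) :
    dg (NB x B) (em2 σ i) ≤ dg B i := by
  refine dg_le _ _ _ _ (ph x) ?_
  intro e' h1 h2
  obtain ⟨e, he, rfl⟩ := mem_NB.1 h1
  refine ⟨e, he, ?_, rfl⟩
  rcases mem_ph.1 h2 with h3 | ⟨k, _, hk, hk'⟩
  · exact absurd h3 (em_ne_none _)
  · rwa [← (em2 σ).injective hk']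

theorem dg_NB_zero {σ : Type} (x : σ) (B : Finset (Finset σ)) (j)
    (h1 : j ≠ none) (h2 : ∀ i, i ≠ x → em2 σ i ≠ j) : dg (NB x B) j ≤ 0 := by
  refine dg_zero _ _ ?_
  intro e he h
  obtain ⟨e, _, rfl⟩ := mem_NB.1 he
  rcases mem_ph.1 h with h3 | ⟨k, hk, _, hk'⟩
  · exact h1 h3
  · exact h2 k hk hk'

theorem cub_NH {σ : Type} (x : σ) (R B : Finset (Finset σ)) (hR : Cub R) (hB : Cub B)
    (hx : ∀ e ∈ B, x ∈ e) : Cub (NH x R B) := by
  intro e' he'
  rcases mem_NH.1 he' with h | h
  · exact cub_H1 (cub_H1 hR x) none e' h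
  · obtain ⟨e, he, rfl⟩ := mem_NB.1 h
    rw [card_ph (hx e he)]
    exact hB e he

open Classical in
theorem hyp_NH {σ : Type} (x : σ) (R B : Finset (Finset σ)) :
    hyp (NH x R B) = hyp (H1 (H1 R x) none) + hyp (NB x B) := by
  have hd : Disjoint (H1 (H1 R x) none) (NB x B) := by
    rw [Finset.disjoint_left]
    intro e' he he'
    obtain ⟨e, _, rfl⟩ := mem_NB.1 he'
    have h1 : (none : Option (Option (Option (Option σ)))) ∈ ph x e := mem_ph.2 (Or.inl rfl)
    have h2 : (some none : Option (Option (Option (Option σ)))) ∉ ph x e := by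
      intro h
      rcases mem_ph.1 h with h | ⟨i, _, _, h⟩
      · cases h
      · exact em_ne _ h
    unfold H1 H0 at he
    rcases mem_ins.1 he with h | h
    · apply h2
      rw [h]
      exact mem_pr.2 (Or.inr rfl)
    · rcases mem_ins.1 h with h | h
      · apply h2
        rw [h]
        exact mem_pr.2 (Or.inr rfl)
      · exact (none_not_mem h).1 h1
  unfold hyp NH
  exact Finset.sum_union hd

theorem red_NH (htr : TRA) (hst : STE) {σ : Type} (x : σ) (H B : Finset (Finset σ)) (hBH : B ⊆ H)
    (hB : ∀ e ∈ B, x ∈ e) (h2 : ∀ e ∈ B, 2 ≤ e.card) :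
    Red (hyp H) (hyp (NH x (df H B) B)) := by
  set R := (df H B) with hR
  have e0 : hyp H = hyp R + C 1 * X x * bb x B := hyp_split x H B hBH hB
  have s1 := hst (hyp R) (X x) (bb x B) 1 (constantCoeff_X _ x) (cc_bb x B hB h2)
  have c2 : constantCoeff (rename (fun i : σ => (some (some i) : Option (Option σ))) (bb x B)) = 0 := by
    rw [constantCoeff_rename]
    exact cc_bb x B hB h2
  have s2 := hst (hyp (H1 R x)) (X none)
    (rename (fun i : σ => (some (some i) : Option (Option σ))) (bb x B)) (-1)
    (constantCoeff_X _ none) c2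
  rw [e0]
  refine htr _ _ _ s1 ?_
  have e1 : (rename (fun i => some (some i)) (hyp R) + rename (fun i => some (some i)) (X x) *
      X (some none) - C 1 * X none * rename (fun i => some (some i)) (bb x B) +
      X none * X (some none) : MvPolynomial (Option (Option σ)) ℤ) =
      hyp (H1 R x) + C (-1) * X none * rename (fun i => some (some i)) (bb x B) := by
    rw [rename_hyp, rename_X, hyp_H1, em_apply, C_neg, C_1]
    ring
  rw [e1]
  have e2 : hyp (NH x R B) = rename (fun i => some (some i)) (hyp (H1 R x)) +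
      rename (fun i => some (some i)) (X none) * X (some none) -
      C (-1) * X none * rename (fun i => some (some i))
        (rename (fun i : σ => (some (some i) : Option (Option σ))) (bb x B)) +
      X none * X (some none) := by
    rw [hyp_NH, hyp_NB x B hB, rename_hyp, rename_X, hyp_H1 (H1 R x) none, em_apply, C_neg, C_1]
    ring
  rw [e2]
  exact s2

theorem exc_lt {σ : Type} [Fintype σ] (x : σ) (H B : Finset (Finset σ)) (hBH : B ⊆ H)
    (hB : ∀ e ∈ B, x ∈ e) (hx : 4 ≤ dg H x) (hc : B.card + 2 = dg H x) :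
    exc (NH x (df H B) B) < exc H := by
  classical
  set R := (df H B) with hR
  have hs := dg_sdiff H B hBH
  have hBx : dg B x = B.card := dg_full B x hB
  have hRx : dg R x = 2 := by
    have := hs x
    rw [← hR] at this
    omega
  have d1 : dg (NH x R B) none ≤ B.card + 1 := by
    have h1 := dg_NH x R B none
    have h2 := dg_H1_none (H1 R x) none
    have h3 := dg_NB_none x B
    omega
  have d2 : dg (NH x R B) (some none) ≤ 2 := by
    have h1 := dg_NH x R B (some none)
    have h2 := dg_H1_some_none (H1 R x) none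
    have h3 := dg_NB_zero x B (some none) (by intro h; cases h) (fun i _ => em_ne _)
    omega
  have d3 : dg (NH x R B) (some (some none)) ≤ 2 := by
    have h1 := dg_NH x R B (some (some none))
    have h2 : dg (H1 (H1 R x) none) (some (some none)) ≤ dg (H1 R x) none + 1 :=
      dg_H1_em (H1 R x) none none
    have h4 := dg_H1_none R x
    have h3 := dg_NB_zero x B (some (some none)) (by intro h; cases h) (by
      intro i _ h
      rw [em2_apply, em_apply, Option.some_inj, Option.some_inj] at h
      exact em_ne_none _ h)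
    omega
  have d4 : dg (NH x R B) (some (some (some none))) ≤ 2 := by
    have h1 := dg_NH x R B (some (some (some none)))
    have h2 : dg (H1 (H1 R x) none) (some (some (some none))) ≤ dg (H1 R x) (some none) :=
      dg_H1_em_ne (H1 R x) none (some none) (by intro h; cases h)
    have h4 := dg_H1_some_none R x
    have h3 := dg_NB_zero x B (some (some (some none))) (by intro h; cases h) (by
      intro i _ h
      rw [em2_apply, em_apply, Option.some_inj, Option.some_inj] at h
      exact em_ne _ h)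
    omega
  have d5 : dg (NH x R B) (some (some (some (some x)))) ≤ 3 := by
    have h1 := dg_NH x R B (some (some (some (some x))))
    have h2 : dg (H1 (H1 R x) none) (some (some (some (some x)))) ≤ dg (H1 R x) (some (some x)) :=
      dg_H1_em_ne (H1 R x) none (some (some x)) (by intro h; cases h)
    have h4 : dg (H1 R x) (some (some x)) ≤ dg R x + 1 := dg_H1_em R x x
    have h3 := dg_NB_zero x B (some (some (some (some x)))) (by intro h; cases h) (by
      intro i hi h
      exact hi ((em2 σ).injective h))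
    omega
  have d6 : ∀ i, i ≠ x → dg (NH x R B) (some (some (some (some i)))) ≤ dg H i := by
    intro i hi
    have h1 := dg_NH x R B (some (some (some (some i))))
    have h2 : dg (H1 (H1 R x) none) (some (some (some (some i)))) ≤ dg (H1 R x) (some (some i)) :=
      dg_H1_em_ne (H1 R x) none (some (some i)) (by intro h; cases h)
    have h4 : dg (H1 R x) (some (some i)) ≤ dg R i := dg_H1_em_ne R x i hi
    have h3 : dg (NB x B) (some (some (some (some i)))) ≤ dg B i := dg_NB_em2 x B i
    have h5 := hs i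
    rw [← hR] at h5
    omega
  unfold exc
  rw [Fintype.sum_option, Fintype.sum_option, Fintype.sum_option, Fintype.sum_option,
    ← Finset.add_sum_erase Finset.univ (fun i => dg (NH x R B) (some (some (some (some i)))) - 3)
      (Finset.mem_univ x), ← Finset.add_sum_erase Finset.univ (fun i => dg H i - 3)
      (Finset.mem_univ x)]
  have d7 : ∑ i ∈ Finset.univ.erase x, (dg (NH x R B) (some (some (some (some i)))) - 3) ≤
      ∑ i ∈ Finset.univ.erase x, (dg H i - 3) := by
    refine Finset.sum_le_sum fun i hi => ?_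
    exact Nat.sub_le_sub_right (d6 i (Finset.ne_of_mem_erase hi)) 3
  omega

theorem main (htr : TRA) (hst : STE) (his : ISO) : ∀ (n : ℕ) (σ : Type) [Fintype σ]
    (H : Finset (Finset σ)), Cub H → exc H ≤ n →
    ∃ (τ : Type) (_ : Fintype τ) (H' : Finset (Finset τ)), Cub H' ∧ Sub3 H' ∧
      Red (hyp H) (hyp H') := by
  classical
  intro n
  induction n using Nat.strong_induction_on with
  | _ n ih =>
    intro σ _ H hH hn
    by_cases h3 : Sub3 H
    · exact ⟨σ, inferInstance, H, hH, h3, his AlgEquiv.refl (fun i => constantCoeff_X _ i) (hyp H)⟩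
    · rw [sub3_iff] at h3
      push Not at h3
      obtain ⟨x, hx⟩ := h3
      obtain ⟨B, hB1, hB2⟩ : ∃ B ⊆ H.filter (fun e => x ∈ e), B.card = dg H x - 2 := by
        refine Finset.exists_subset_card_eq ?_
        unfold dg
        omega
      have hBH : B ⊆ H := hB1.trans (Finset.filter_subset _ _)
      have hB : ∀ e ∈ B, x ∈ e := fun e he => (Finset.mem_filter.1 (hB1 he)).2
      have hlt := exc_lt x H B hBH hB (by omega) (by omega)
      have hcub : Cub (NH x (df H B) B) := by
        refine cub_NH x _ B ?_ (fun e he => hH e (hBH he)) hB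
        intro e he
        exact hH e (mem_df.1 he).1
      have hred := red_NH htr hst x H B hBH hB (fun e he => by
        rcases hH e (hBH he) with h | h <;> omega)
      obtain ⟨τ, i, H', g1, g2, g3⟩ := ih _ (lt_of_lt_of_le hlt hn) _ _ hcub le_rfl
      exact ⟨τ, i, H', g1, g2, htr _ _ _ hred g3⟩

end

theorem t (htr : TRA) (hst : STE) (his : ISO) : Pool.Agent.Helper74.HG.DEG := by
  intro σ _ H hH
  exact main htr hst his (exc H) σ H hH le_rfl

end Pool.Agent.Helper91.HG.DEG
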