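import Pool.Agent.Helper74.HG.GoalsB

/-!
# Project HG part 4 (MP_aa7fc1_ag): goal LIB
-/

set_option autoImplicit false

namespace Pool.Agent.Helper91.HG.LIB

open MvPolynomial
open Pool.Agent.Helper74.HG

/-- `l f` is a sum of signed words with exactly one letter `none` and length at least 2 -/
def RR {σ : Type} (f : MvPolynomial σ ℤ) : Prop :=
  ∃ L : List (ℤ × List (Option σ)),
    (∀ p ∈ L, (p.1 = 1 ∨ p.1 = -1) ∧ 2 ≤ p.2.length ∧ p.2.countP Option.isNone = 1) ∧
    lf f = (L.map wp).sum

lemma zero {σ : Type} : RR (0 : MvPolynomial σ ℤ) :=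
  ⟨[], fun p hp => absurd hp List.not_mem_nil, by simp [lf]⟩

lemma add {σ : Type} (f g : MvPolynomial σ ℤ) (hf : RR f) (hg : RR g) : RR (f + g) := by
  obtain ⟨L, h1, h2⟩ := hf
  obtain ⟨L', h3, h4⟩ := hg
  refine ⟨L ++ L', ?_, ?_⟩
  · intro p hp
    rcases List.mem_append.1 hp with h | h
    · exact h1 p h
    · exact h3 p h
  · rw [List.map_append, List.sum_append, ← h2, ← h4]
    unfold lf
    rw [map_add, mul_add]

lemma word {σ : Type} (u : σ →₀ ℕ) :
    ((Finsupp.toMultiset u).toList.map (X : σ → MvPolynomial σ ℤ)).prod = monomial u 1 := by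
  rw [← Multiset.prod_coe, ← Multiset.map_coe, Multiset.coe_toList, monomial_eq, C_1, one_mul]
  rw [Finsupp.toMultiset_map, Finsupp.prod_toMultiset, Finsupp.prod_mapDomain_index]
  · exact fun a => pow_zero a
  · exact fun a m n => pow_add a m n

lemma word_some {σ : Type} (u : σ →₀ ℕ) :
    (((Finsupp.toMultiset u).toList.map (some : σ → Option σ)).map
      (X : Option σ → MvPolynomial (Option σ) ℤ)).prod = rename some (monomial u (1 : ℤ)) := by
  rw [← word u, map_list_prod, List.map_map, List.map_map]
  congr 1
  apply List.map_congr_left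
  intro i _
  show X (some i) = rename some (X i)
  rw [rename_X]

lemma countP_some {σ : Type} (l : List σ) :
    (l.map (some : σ → Option σ)).countP Option.isNone = 0 := by
  rw [List.countP_eq_zero]
  intro a ha
  obtain ⟨b, _, rfl⟩ := List.mem_map.1 ha
  simp

lemma one_word {σ : Type} (u : σ →₀ ℕ) (hu : u ≠ 0) (ε : ℤ) (hε : ε = 1 ∨ ε = -1) :
    RR (monomial u ε : MvPolynomial σ ℤ) := by
  refine ⟨[(ε, none :: (Finsupp.toMultiset u).toList.map some)], ?_, ?_⟩
  · intro p hp
    rw [List.mem_singleton] at hp
    rw [hp]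
    refine ⟨hε, ?_, ?_⟩
    · show 2 ≤ (none :: (Finsupp.toMultiset u).toList.map some).length
      rw [List.length_cons, List.length_map, Multiset.length_toList, Finsupp.card_toMultiset]
      have h : u.degree ≠ 0 := fun h => hu ((Finsupp.degree_eq_zero_iff u).1 h)
      change u.degree + 1 ≥ 2
      omega
    · show (none :: (Finsupp.toMultiset u).toList.map some).countP Option.isNone = 1
      rw [List.countP_cons, countP_some]
      rfl
  · rw [List.map_singleton, List.sum_singleton]
    show _ = C ε * ((none :: (Finsupp.toMultiset u).toList.map some).map X).prod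
    rw [List.map_cons, List.prod_cons, word_some]
    unfold lf
    rw [show (monomial u ε : MvPolynomial σ ℤ) = C ε * monomial u 1 by
      rw [C_mul_monomial, mul_one], map_mul, rename_C]
    ring

lemma mono {σ : Type} (u : σ →₀ ℕ) (hu : u ≠ 0) (c : ℤ) :
    RR (monomial u c : MvPolynomial σ ℤ) := by
  induction c using Int.induction_on with
  | zero =>
    rw [map_zero]
    exact zero
  | succ i ih =>
    rw [map_add]
    exact add _ _ ih (one_word u hu 1 (Or.inl rfl))
  | pred i ih =>
    rw [sub_eq_add_neg, map_add]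
    exact add _ _ ih (one_word u hu (-1) (Or.inr rfl))

theorem t : Pool.Agent.Helper74.HG.LIB := by
  intro σ f hf
  have h : RR (∑ u ∈ f.support, monomial u (coeff u f)) := by
    refine Finset.sum_induction _ RR add zero fun u hu => mono u ?_ _
    rintro rfl
    rw [mem_support_iff, ← constantCoeff_eq] at hu
    exact hu hf
  rw [support_sum_monomial_coeff] at h
  exact h

end Pool.Agent.Helper91.HG.LIB
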